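import Pool.Agent.H98.SLN.Targets

/-!
Row CMT: change of measure.
-/

set_option autoImplicit false

open MeasureTheory ProbabilityTheory Filter Topology
open scoped ENNReal
open Pool.Agent.H95 Pool.Agent.H95.Cop
open Pool.Agent.H55.CG (pz VV Mo)
open Pool.Agent.H98.CE (pc WB HK OBJ)
open Pool.Agent.H96.Cop (ex pk Wn chargeLaw)
open Pool.Agent.H99.CE (NX)
open Pool.Agent.H98.SLN

namespace Pool.Agent.H64.SLN

lemma cmt_H_cons (a : ℝ) (p : ℕ → ℝ) (n : ℕ) : H (cons a p) 0 (n + 1) = a + H p 0 n := by
  unfold H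
  rw [← Finset.range_eq_Ico, ← Finset.range_eq_Ico, Finset.sum_range_succ']
  simp [add_comm]

lemma cmt_meas_H (n : ℕ) : Measurable (fun x : ℕ → ℝ => H x 0 n) := by
  unfold H
  exact Finset.measurable_sum _ (fun i _ => measurable_pi_apply i)

lemma cmt_z4 (z : ℝ) : z ^ 4 ≤ 24 * (Real.exp z + Real.exp (-z)) := by
  have h1 := Real.pow_div_factorial_le_exp |z| (abs_nonneg z) 4
  have h2 : Real.exp |z| ≤ Real.exp z + Real.exp (-z) := by
    rcases le_total 0 z with h | h
    · rw [abs_of_nonneg h]
      linarith [Real.exp_pos (-z)]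
    · rw [abs_of_nonpos h]
      linarith [Real.exp_pos z]
  have h3 : |z| ^ 4 = z ^ 4 := by
    rw [show |z| ^ 4 = (|z| ^ 2) ^ 2 from by ring, sq_abs]
    ring
  rw [h3] at h1
  have h4 : ((Nat.factorial 4 : ℕ) : ℝ) = 24 := by norm_num [Nat.factorial]
  rw [h4] at h1
  linarith [(div_le_iff₀ (by norm_num : (0 : ℝ) < 24)).1 h1]

theorem pf_CMT : T_CMT := by
  intro ν _ hint s
  have hprob : IsProbabilityMeasure (ν.tilted fun z => s * z) :=
    isProbabilityMeasure_tilted (hint s)
  refine ⟨hprob, ?_, ?_⟩
  · rw [integrable_tilted_iff (hint s)]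
    have hdom : Integrable (fun z => 24 * (Real.exp ((s + 1) * z) + Real.exp ((s - 1) * z))) ν :=
      ((hint (s + 1)).add (hint (s - 1))).const_mul 24
    refine hdom.mono' (by fun_prop) (Eventually.of_forall (fun z => ?_))
    rw [smul_eq_mul, Real.norm_of_nonneg (mul_nonneg (Real.exp_pos _).le (by positivity))]
    have h1 := mul_le_mul_of_nonneg_left (cmt_z4 z) (Real.exp_pos (s * z)).le
    refine h1.trans (le_of_eq ?_)
    rw [show (s + 1) * z = s * z + z from by ring, show (s - 1) * z = s * z + -z from by ring,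
      Real.exp_add, Real.exp_add]
    ring
  · have hMo : 0 < Mo ν s := integral_exp_pos (hint s)
    intro n
    induction n with
    | zero =>
      intro g hg hd
      have hc : ∀ x, g x = g 0 := fun x => hd x 0 (fun i hi => absurd hi (Nat.not_lt_zero i))
      have hH : ∀ x : ℕ → ℝ, H x 0 0 = 0 := fun x => by unfold H; simp
      simp only [hc, hH, mul_zero, Real.exp_zero, ENNReal.ofReal_one, one_mul, lintegral_const,
        measure_univ, mul_one, pow_zero]
    | succ n ih =>
      intro g hg hd
      have hcons : ∀ a : ℝ, Measurable (fun p : ℕ → ℝ => cons a p) := fun a =>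
        measurable_cons.comp (measurable_const.prodMk measurable_id)
      have hga : ∀ a : ℝ, Measurable (fun p : ℕ → ℝ => g (cons a p)) := fun a =>
        hg.comp (hcons a)
      have hda : ∀ a : ℝ, DepLt n (fun p : ℕ → ℝ => g (cons a p)) := by
        intro a x x' hx
        refine hd _ _ (fun i hi => ?_)
        cases i with
        | zero => rfl
        | succ i => exact hx i (by omega)
      have hgm : Measurable (fun q : ℝ × (ℕ → ℝ) => g (cons q.1 q.2)) :=
        hg.comp measurable_cons
      have hf : Measurable (fun x : ℕ → ℝ => ENNReal.ofReal (Real.exp (s * H x 0 (n + 1))) * g x) :=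
        (((cmt_meas_H (n + 1)).const_mul s).exp.ennreal_ofReal).mul hg
      have hf2 : Measurable (fun q : ℝ × (ℕ → ℝ) =>
          ENNReal.ofReal (Real.exp (s * H (cons q.1 q.2) 0 (n + 1))) * g (cons q.1 q.2)) :=
        hf.comp measurable_cons
      calc ∫⁻ x, ENNReal.ofReal (Real.exp (s * H x 0 (n + 1))) * g x ∂(iid ν)
          = ∫⁻ q : ℝ × (ℕ → ℝ), ENNReal.ofReal (Real.exp (s * H (cons q.1 q.2) 0 (n + 1))) *
              g (cons q.1 q.2) ∂(ν.prod (iid ν)) :=
            ((measurePreserving_cons ν).lintegral_comp hf).symm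
        _ = ∫⁻ a, ∫⁻ p, ENNReal.ofReal (Real.exp (s * H (cons a p) 0 (n + 1))) *
              g (cons a p) ∂(iid ν) ∂ν := lintegral_prod _ hf2.aemeasurable
        _ = ∫⁻ a, ENNReal.ofReal (Mo ν s ^ (n + 1)) *
              (ENNReal.ofReal (Real.exp (s * a) / ∫ z, Real.exp (s * z) ∂ν) *
                ∫⁻ p, g (cons a p) ∂(iid (ν.tilted fun z => s * z))) ∂ν := by
            refine lintegral_congr (fun a => ?_)
            have e1 : ∀ p : ℕ → ℝ, ENNReal.ofReal (Real.exp (s * H (cons a p) 0 (n + 1))) *
                g (cons a p) = ENNReal.ofReal (Real.exp (s * a)) *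
                (ENNReal.ofReal (Real.exp (s * H p 0 n)) * g (cons a p)) := by
              intro p
              rw [cmt_H_cons, mul_add, Real.exp_add, ENNReal.ofReal_mul (Real.exp_pos _).le,
                mul_assoc]
            simp only [e1]
            rw [lintegral_const_mul' _ _ ENNReal.ofReal_ne_top, ih _ (hga a) (hda a),
              ← mul_assoc, ← mul_assoc, ← ENNReal.ofReal_mul (Real.exp_pos _).le,
              ← ENNReal.ofReal_mul (pow_nonneg hMo.le _)]
            congr 2
            have e2 : (∫ z, Real.exp (s * z) ∂ν) = Mo ν s := rfl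
            rw [e2, pow_succ]
            field_simp
        _ = ENNReal.ofReal (Mo ν s ^ (n + 1)) *
              ∫⁻ a, ENNReal.ofReal (Real.exp (s * a) / ∫ z, Real.exp (s * z) ∂ν) *
                ∫⁻ p, g (cons a p) ∂(iid (ν.tilted fun z => s * z)) ∂ν :=
            lintegral_const_mul' _ _ ENNReal.ofReal_ne_top
        _ = ENNReal.ofReal (Mo ν s ^ (n + 1)) *
              ∫⁻ a, ∫⁻ p, g (cons a p) ∂(iid (ν.tilted fun z => s * z))
                ∂(ν.tilted fun z => s * z) := by
            rw [lintegral_tilted]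
        _ = ENNReal.ofReal (Mo ν s ^ (n + 1)) *
              ∫⁻ q : ℝ × (ℕ → ℝ), g (cons q.1 q.2)
                ∂((ν.tilted fun z => s * z).prod (iid (ν.tilted fun z => s * z))) := by
            rw [lintegral_prod _ hgm.aemeasurable]
        _ = ENNReal.ofReal (Mo ν s ^ (n + 1)) * ∫⁻ x, g x ∂(iid (ν.tilted fun z => s * z)) := by
            rw [(measurePreserving_cons (ν.tilted fun z => s * z)).lintegral_comp hg]

end Pool.Agent.H64.SLN
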