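import Pool.Agent.H98.SLN.Targets

/-!
Row WIN: the renewal mass of a window.
-/

set_option autoImplicit false

open MeasureTheory ProbabilityTheory Filter Topology
open scoped ENNReal
open Pool.Agent.H95 Pool.Agent.H95.Cop
open Pool.Agent.H55.CG (pz VV Mo)
open Pool.Agent.H98.CE (pc WB HK OBJ)
open Pool.Agent.H96.Cop (ex pk Wn chargeLaw)
open Pool.Agent.H99.CE (NX)
open Pool.Agent.H98.SLN

namespace Pool.Agent.H64.SLN

/-- the renewal equation as a sum over a long range -/
lemma uu_long (k : ℕ → ℝ) (h0 : k 0 = 0) (n M : ℕ) (hn : 1 ≤ n) (hM : n < M) :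
    uu k n = ∑ j ∈ Finset.range M, k j * (if j ≤ n then uu k (n - j) else 0) := by
  obtain ⟨n', rfl⟩ : ∃ n', n = n' + 1 := ⟨n - 1, by omega⟩
  have h1 : ∑ j ∈ Finset.range M, k j * (if j ≤ n' + 1 then uu k (n' + 1 - j) else 0) =
      ∑ j ∈ Finset.range (n' + 1 + 1), k j * uu k (n' + 1 - j) := by
    rw [← Finset.sum_subset (Finset.range_subset_range.2 (show n' + 1 + 1 ≤ M by omega))]
    · refine Finset.sum_congr rfl (fun j hj => ?_)
      rw [if_pos (by have := Finset.mem_range.1 hj; omega)]
    · intro j _ hj
      rw [if_neg (by have := Finset.mem_range.not.1 hj; omega), mul_zero]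
  rw [h1, Finset.sum_range_succ', h0, zero_mul, add_zero, uu_succ]
  refine Finset.sum_congr rfl (fun j hj => ?_)
  rw [Nat.add_sub_add_right]

theorem pf_WIN : T_WIN := by
  intro k h0 hk hs A L
  have hu : ∀ n, 0 ≤ uu k n := uu_nonneg k hk
  have hW0 : 0 ≤ ∑ n ∈ Finset.range L, uu k n := Finset.sum_nonneg (fun n _ => hu n)
  have main : ∀ A, ∑ i ∈ Finset.range L, uu k (A + i) ≤ ∑ n ∈ Finset.range L, uu k n := by
    intro A
    induction A using Nat.strong_induction_on with
    | _ A ih =>
      rcases Nat.eq_zero_or_pos A with rfl | hA
      · simp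
      · have e1 : ∑ i ∈ Finset.range L, uu k (A + i) = ∑ j ∈ Finset.range (A + L),
            k j * ∑ i ∈ Finset.range L, (if j ≤ A + i then uu k (A + i - j) else 0) := by
          rw [Finset.sum_congr rfl (fun i hi => uu_long k h0 (A + i) (A + L) (by omega)
            (by have := Finset.mem_range.1 hi; omega)), Finset.sum_comm]
          refine Finset.sum_congr rfl (fun j _ => ?_)
          rw [Finset.mul_sum]
        rw [e1]
        have e2 : ∀ j ∈ Finset.range (A + L), k j * ∑ i ∈ Finset.range L,
            (if j ≤ A + i then uu k (A + i - j) else 0) ≤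
            k j * ∑ n ∈ Finset.range L, uu k n := by
          intro j _
          rcases Nat.eq_zero_or_pos j with rfl | hj
          · rw [h0, zero_mul, zero_mul]
          refine mul_le_mul_of_nonneg_left ?_ (hk j)
          rcases le_or_gt j A with hjA | hjA
          · refine le_trans (le_of_eq ?_) (ih (A - j) (by omega))
            refine Finset.sum_congr rfl (fun i _ => ?_)
            rw [if_pos (by omega)]
            congr 1
            omega
          · have e3 : ∑ i ∈ Finset.range L, (if j ≤ A + i then uu k (A + i - j) else 0) =
                ∑ i ∈ Finset.Ico (j - A) L, uu k (i - (j - A)) := by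
              rw [← Finset.sum_filter]
              refine Finset.sum_congr ?_ (fun i hi => ?_)
              · ext i
                simp only [Finset.mem_filter, Finset.mem_range, Finset.mem_Ico]
                omega
              · have := Finset.mem_Ico.1 hi
                congr 1
                omega
            rw [e3, Finset.sum_Ico_eq_sum_range]
            refine le_trans (le_of_eq (Finset.sum_congr rfl (fun i _ => ?_)))
              (Finset.sum_le_sum_of_subset_of_nonneg
                (Finset.range_subset_range.2 (show L - (j - A) ≤ L by omega))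
                (fun n _ _ => hu n))
            congr 1
            omega
        refine (Finset.sum_le_sum e2).trans ?_
        rw [← Finset.sum_mul]
        exact (mul_le_mul_of_nonneg_right (hs _) hW0).trans (le_of_eq (one_mul _))
  rw [Finset.sum_Ico_eq_sum_range, Nat.add_sub_cancel_left]
  exact main A

end Pool.Agent.H64.SLN
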